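import Pool.Agent.H45.Lib.S8.H921R2.TatePole.Dirichlet

set_option autoImplicit false

open Complex Filter Topology

namespace Pool.Agent.H921R2.TatePole

/-- real weight `p^{-x}` -/
noncomputable def w (x : ℝ) (p : Nat.Primes) : ℝ := ((p : ℕ) : ℝ) ^ (-x)

lemma w_nonneg (x : ℝ) (p : Nat.Primes) : 0 ≤ w x p := by unfold w; positivity

lemma w_summable {x : ℝ} (hx : 1 < x) : Summable (w x) := summable_primes_rpow hx

lemma bddmul_summable {x : ℝ} (hx : 1 < x) {f : Nat.Primes → ℝ} {C : ℝ} (hf : ∀ p, |f p| ≤ C) :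
    Summable (fun p => f p * w x p) := by
  refine Summable.of_norm_bounded ((w_summable hx).mul_left C) fun p => ?_
  rw [norm_mul, Real.norm_eq_abs, Real.norm_eq_abs, abs_of_nonneg (w_nonneg x p)]
  exact mul_le_mul_of_nonneg_right (hf p) (w_nonneg x p)

lemma bessel {ι : Type*} [Fintype ι] (a : Nat.Primes → ℂ) (T : ℝ) (ha : ∀ p, ‖a p‖ ≤ T)
    (u : ι → Nat.Primes → ℂ) (hu : ∀ i p, ‖u i p‖ ≤ 1) (y : ι → ℝ) {x : ℝ} (hx : 1 < x) :
    2 * ∑ i, y i * (∑' p, (a p * u i p).re * w x p) ≤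
      (∑' p, ‖a p‖ ^ 2 * w x p) +
        ∑ i, ∑ j, y i * y j * (∑' p, ((starRingEnd ℂ) (u i p) * u j p).re * w x p) := by
  have hT : 0 ≤ T := by
    have := ha ⟨2, Nat.prime_two⟩
    exact (norm_nonneg _).trans this
  have key : ∀ p, 2 * ∑ i, y i * (a p * u i p).re ≤
      ‖a p‖ ^ 2 + ∑ i, ∑ j, y i * y j * ((starRingEnd ℂ) (u i p) * u j p).re := by
    intro p
    set b : ℂ := ∑ i, (y i : ℂ) * u i p with hb
    have h1 : 0 ≤ ‖(starRingEnd ℂ) (a p) - b‖ ^ 2 := by positivity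
    have h2 : ‖(starRingEnd ℂ) (a p) - b‖ ^ 2 = ‖a p‖ ^ 2 - 2 * (a p * b).re + ‖b‖ ^ 2 := by
      rw [← Complex.normSq_eq_norm_sq, ← Complex.normSq_eq_norm_sq, ← Complex.normSq_eq_norm_sq,
        Complex.normSq_sub]
      rw [Complex.normSq_conj, ← map_mul, Complex.conj_re]
      ring
    have h3 : (a p * b).re = ∑ i, y i * (a p * u i p).re := by
      rw [hb, Finset.mul_sum, Complex.re_sum]
      refine Finset.sum_congr rfl fun i _ => ?_
      have : a p * ((y i : ℂ) * u i p) = (y i : ℂ) * (a p * u i p) := by ring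
      rw [this, Complex.re_ofReal_mul]
    have h4 : ‖b‖ ^ 2 = ∑ i, ∑ j, y i * y j * ((starRingEnd ℂ) (u i p) * u j p).re := by
      have h5 : ((‖b‖ ^ 2 : ℝ) : ℂ) = (starRingEnd ℂ) b * b := by
        rw [mul_comm, Complex.mul_conj, Complex.normSq_eq_norm_sq]
      have h6 : ‖b‖ ^ 2 = ((starRingEnd ℂ) b * b).re := by
        rw [← h5, Complex.ofReal_re]
      rw [h6, hb, map_sum, Finset.sum_mul_sum, Complex.re_sum]
      refine Finset.sum_congr rfl fun i _ => ?_
      rw [Complex.re_sum]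
      refine Finset.sum_congr rfl fun j _ => ?_
      have : (starRingEnd ℂ) ((y i : ℂ) * u i p) * ((y j : ℂ) * u j p) =
          ((y i * y j : ℝ) : ℂ) * ((starRingEnd ℂ) (u i p) * u j p) := by
        rw [map_mul, Complex.conj_ofReal]; push_cast; ring
      rw [this, Complex.re_ofReal_mul]
    rw [h2, h3, h4] at h1
    linarith
  -- sum over `p` with weights
  have hau : ∀ i, ∀ p, |(a p * u i p).re| ≤ T := fun i p => by
    refine (Complex.abs_re_le_norm _).trans ?_
    rw [norm_mul]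
    calc ‖a p‖ * ‖u i p‖ ≤ T * 1 := mul_le_mul (ha p) (hu i p) (norm_nonneg _) hT
      _ = T := mul_one T
  have huu : ∀ i j, ∀ p, |((starRingEnd ℂ) (u i p) * u j p).re| ≤ 1 := fun i j p => by
    refine (Complex.abs_re_le_norm _).trans ?_
    rw [norm_mul, Complex.norm_conj]
    calc ‖u i p‖ * ‖u j p‖ ≤ 1 * 1 := mul_le_mul (hu i p) (hu j p) (norm_nonneg _) zero_le_one
      _ = 1 := mul_one 1
  have s0 : Summable fun p => ‖a p‖ ^ 2 * w x p := bddmul_summable hx (C := T ^ 2) fun p => by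
    rw [abs_of_nonneg (by positivity)]
    exact pow_le_pow_left₀ (norm_nonneg _) (ha p) 2
  have s1 : ∀ i, Summable fun p => y i * ((a p * u i p).re * w x p) := fun i =>
    (bddmul_summable hx (hau i)).mul_left _
  have s2 : ∀ i j, Summable fun p => y i * y j * (((starRingEnd ℂ) (u i p) * u j p).re * w x p) :=
    fun i j => (bddmul_summable hx (huu i j)).mul_left _
  have e1 : 2 * ∑ i, y i * (∑' p, (a p * u i p).re * w x p) =
      ∑' p, 2 * ∑ i, y i * ((a p * u i p).re * w x p) := by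
    rw [tsum_mul_left, Summable.tsum_finsetSum (fun i _ => s1 i)]
    congr 1
    refine Finset.sum_congr rfl fun i _ => ?_
    rw [tsum_mul_left]
  have e2 : (∑' p, ‖a p‖ ^ 2 * w x p) + ∑ i, ∑ j, y i * y j *
      (∑' p, ((starRingEnd ℂ) (u i p) * u j p).re * w x p) =
      ∑' p, (‖a p‖ ^ 2 * w x p + ∑ i, ∑ j, y i * y j *
        (((starRingEnd ℂ) (u i p) * u j p).re * w x p)) := by
    rw [Summable.tsum_add s0
      (summable_sum fun i _ => summable_sum fun j _ => s2 i j)]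
    congr 1
    rw [Summable.tsum_finsetSum (fun i _ => summable_sum fun j _ => s2 i j)]
    refine Finset.sum_congr rfl fun i _ => ?_
    rw [Summable.tsum_finsetSum (fun j _ => s2 i j)]
    refine Finset.sum_congr rfl fun j _ => ?_
    rw [tsum_mul_left]
  rw [e1, e2]
  refine Summable.tsum_le_tsum (fun p => ?_) ((summable_sum fun i _ => s1 i).mul_left 2)
    (s0.add (summable_sum fun i _ => summable_sum fun j _ => s2 i j))
  have h1 := mul_le_mul_of_nonneg_right (key p) (w_nonneg x p)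
  have h2 : (2 * ∑ i, y i * (a p * u i p).re) * w x p =
      2 * ∑ i, y i * ((a p * u i p).re * w x p) := by
    rw [mul_assoc, Finset.sum_mul]
    congr 1
    exact Finset.sum_congr rfl fun i _ => by ring
  have h3 : (‖a p‖ ^ 2 + ∑ i, ∑ j, y i * y j * ((starRingEnd ℂ) (u i p) * u j p).re) * w x p =
      ‖a p‖ ^ 2 * w x p + ∑ i, ∑ j, y i * y j * (((starRingEnd ℂ) (u i p) * u j p).re * w x p) := by
    rw [add_mul, Finset.sum_mul]
    congr 1
    refine Finset.sum_congr rfl fun i _ => ?_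
    rw [Finset.sum_mul]
    exact Finset.sum_congr rfl fun j _ => by ring
  rw [h2, h3] at h1
  exact h1

/-- the twisting function `u(p) = χ(p) p^{-iτ}` -/
noncomputable def tw {N : ℕ} (χ : DirichletCharacter ℂ N) (τ : ℝ) (p : Nat.Primes) : ℂ :=
  χ ((p : ℕ) : ZMod N) * ((p : ℕ) : ℂ) ^ (-(τ * I))

lemma norm_prime_cpow_imag (p : Nat.Primes) (τ : ℝ) : ‖((p : ℕ) : ℂ) ^ (-(τ * I))‖ = 1 := by
  rw [Complex.norm_natCast_cpow_of_pos p.prop.pos]
  simp

lemma norm_tw_le {N : ℕ} (χ : DirichletCharacter ℂ N) (τ : ℝ) (p : Nat.Primes) :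
    ‖tw χ τ p‖ ≤ 1 := by
  unfold tw
  rw [norm_mul, norm_prime_cpow_imag, mul_one]
  exact DirichletCharacter.norm_le_one _ _

lemma prime_cpow_split (p : Nat.Primes) (x τ : ℝ) :
    ((p : ℕ) : ℂ) ^ (-((x : ℂ) + τ * I)) = ((p : ℕ) : ℂ) ^ (-(τ * I)) * ((w x p : ℝ) : ℂ) := by
  have hp : ((p : ℕ) : ℂ) ≠ 0 := by exact_mod_cast p.prop.ne_zero
  unfold w
  rw [neg_add, add_comm, Complex.cpow_add _ _ hp, Complex.ofReal_cpow (by positivity)]
  simp

lemma tsum_re_tw {a : Nat.Primes → ℂ} {T : ℝ} (ha : ∀ p, ‖a p‖ ≤ T) {N : ℕ}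
    (χ : DirichletCharacter ℂ N) (τ : ℝ) {x : ℝ} (hx : 1 < x) :
    (∑' p : Nat.Primes, (χ ((p : ℕ) : ZMod N) * a p) *
      ((p : ℕ) : ℂ) ^ (-((x : ℂ) + τ * I))).re = ∑' p, (a p * tw χ τ p).re * w x p := by
  have hT : 0 ≤ T := (norm_nonneg _).trans (ha ⟨2, Nat.prime_two⟩)
  have e : ∀ p : Nat.Primes, (χ ((p : ℕ) : ZMod N) * a p) *
      ((p : ℕ) : ℂ) ^ (-((x : ℂ) + τ * I)) = (a p * tw χ τ p) * ((w x p : ℝ) : ℂ) := by
    intro p
    rw [prime_cpow_split]
    unfold tw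
    ring
  rw [tsum_congr e]
  have hs : Summable (fun p : Nat.Primes => (a p * tw χ τ p) * ((w x p : ℝ) : ℂ)) := by
    refine Summable.of_norm_bounded ((w_summable hx).mul_left T) fun p => ?_
    rw [norm_mul, Complex.norm_real, Real.norm_eq_abs, abs_of_nonneg (w_nonneg x p), norm_mul]
    refine mul_le_mul_of_nonneg_right ?_ (w_nonneg x p)
    calc ‖a p‖ * ‖tw χ τ p‖ ≤ T * 1 := mul_le_mul (ha p) (norm_tw_le χ τ p) (norm_nonneg _) hT
      _ = T := mul_one T
  rw [Complex.re_tsum hs]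
  refine tsum_congr fun p => ?_
  rw [Complex.re_mul_ofReal]

/-- finitely many primes do not matter -/
lemma finite_support_bdd {g : Nat.Primes → ℝ} {C : ℝ} (hg : ∀ p, |g p| ≤ C) {M : ℕ} (hM : M ≠ 0)
    (h0 : ∀ p : Nat.Primes, ¬ (p : ℕ) ∣ M → g p = 0) :
    Bdd (fun x => ∑' p, g p * w x p) := by
  classical
  have hfin : {p : Nat.Primes | (p : ℕ) ∣ M}.Finite := by
    have : Set.InjOn (fun p : Nat.Primes => (p : ℕ)) {p : Nat.Primes | (p : ℕ) ∣ M} :=
      fun a _ b _ h => Subtype.ext h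
    refine Set.Finite.of_finite_image (Set.Finite.subset (Nat.divisors M).finite_toSet ?_) this
    rintro _ ⟨p, hp, rfl⟩
    simp only [Finset.mem_coe, Nat.mem_divisors]
    exact ⟨hp, hM⟩
  refine ⟨∑ p ∈ hfin.toFinset, C, ?_⟩
  filter_upwards [self_mem_nhdsWithin] with x hx
  have hx' : (1 : ℝ) < x := hx
  have hC : 0 ≤ C := (abs_nonneg _).trans (hg ⟨2, Nat.prime_two⟩)
  rw [tsum_eq_sum (s := hfin.toFinset)]
  · refine (Finset.abs_sum_le_sum_abs _ _).trans (Finset.sum_le_sum fun p _ => ?_)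
    rw [abs_mul, abs_of_nonneg (w_nonneg x p)]
    calc |g p| * w x p ≤ C * 1 := by
          refine mul_le_mul (hg p) ?_ (w_nonneg x p) hC
          have := prime_rpow_le_half p hx'.le
          unfold w
          linarith
      _ = C := mul_one C
  · intro p hp
    have : ¬ (p : ℕ) ∣ M := by simpa using hp
    rw [h0 p this, zero_mul]

/-- orthogonality -/
lemma orth {N M : ℕ} [NeZero N] [NeZero M] (χ : DirichletCharacter ℂ N)
    (ψ : DirichletCharacter ℂ M) (τ σ : ℝ)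
    (h : τ ≠ σ ∨ ∃ n : ℕ, n.Coprime N ∧ n.Coprime M ∧ χ (n : ZMod N) ≠ ψ (n : ZMod M)) :
    Bdd (fun x => ∑' p, ((starRingEnd ℂ) (tw χ τ p) * tw ψ σ p).re * w x p) := by
  classical
  have : NeZero (N * M) := ⟨mul_ne_zero (NeZero.ne N) (NeZero.ne M)⟩
  set θ : DirichletCharacter ℂ (N * M) :=
    DirichletCharacter.changeLevel (dvd_mul_right N M) χ⁻¹ *
      DirichletCharacter.changeLevel (dvd_mul_left M N) ψ with hθ
  have hval : ∀ n : ℕ, n.Coprime (N * M) →
      θ (n : ZMod (N * M)) = (starRingEnd ℂ) (χ (n : ZMod N)) * ψ (n : ZMod M) := by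
    intro n hn
    have hu : IsUnit ((n : ZMod (N * M))) := (ZMod.isUnit_iff_coprime n (N * M)).mpr hn
    rw [hθ, MulChar.mul_apply]
    have h1 := DirichletCharacter.changeLevel_eq_cast_of_dvd χ⁻¹ (dvd_mul_right N M) hu.unit
    have h2 := DirichletCharacter.changeLevel_eq_cast_of_dvd ψ (dvd_mul_left M N) hu.unit
    rw [IsUnit.unit_spec, ZMod.cast_natCast (dvd_mul_right N M)] at h1
    rw [IsUnit.unit_spec, ZMod.cast_natCast (dvd_mul_left M N)] at h2
    rw [h1, h2, ← MulChar.star_eq_inv]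
    congr 1
  have hne : θ ≠ 1 ∨ (σ - τ) ≠ 0 := by
    rcases h with h | ⟨n, h1, h2, h3⟩
    · exact Or.inr (sub_ne_zero.mpr (Ne.symm h))
    · left
      intro hθ1
      have hn : n.Coprime (N * M) := Nat.Coprime.mul_right h1 h2
      have h4 := hval n hn
      rw [hθ1, MulChar.one_apply ((ZMod.isUnit_iff_coprime n (N * M)).mpr hn)] at h4
      have h5 : ‖χ (n : ZMod N)‖ = 1 := by
        have hu : IsUnit (n : ZMod N) := (ZMod.isUnit_iff_coprime n N).mpr h1
        have := DirichletCharacter.unit_norm_eq_one χ hu.unit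
        rwa [IsUnit.unit_spec] at this
      apply h3
      have h6 : χ (n : ZMod N) * ((starRingEnd ℂ) (χ (n : ZMod N)) * ψ (n : ZMod M)) =
          ψ (n : ZMod M) := by
        rw [← mul_assoc, Complex.mul_conj, Complex.normSq_eq_norm_sq, h5]
        simp
      rw [← h4, mul_one] at h6
      exact h6
  have hB := dirichlet_bdd θ (σ - τ) hne
  -- rewrite the two sums
  have hB' : Bdd (fun x => ∑' p, ((1 : ℂ) * tw θ (σ - τ) p).re * w x p) := by
    refine hB.congr fun x hx => ?_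
    rw [← tsum_re_tw (a := fun _ => (1 : ℂ)) (T := 1) (fun p => by simp) θ (σ - τ) hx]
    simp
  have hD : Bdd (fun x => ∑' p, (((starRingEnd ℂ) (tw χ τ p) * tw ψ σ p).re -
      ((1 : ℂ) * tw θ (σ - τ) p).re) * w x p) := by
    refine finite_support_bdd (C := 2) (fun p => ?_) (NeZero.ne (N * M)) fun p hp => ?_
    · refine (abs_sub _ _).trans ?_
      have h1 : |((starRingEnd ℂ) (tw χ τ p) * tw ψ σ p).re| ≤ 1 := by
        refine (Complex.abs_re_le_norm _).trans ?_
        rw [norm_mul, Complex.norm_conj]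
        calc ‖tw χ τ p‖ * ‖tw ψ σ p‖ ≤ 1 * 1 :=
              mul_le_mul (norm_tw_le _ _ _) (norm_tw_le _ _ _) (norm_nonneg _) zero_le_one
          _ = 1 := mul_one 1
      have h2 : |((1 : ℂ) * tw θ (σ - τ) p).re| ≤ 1 := by
        rw [one_mul]
        exact (Complex.abs_re_le_norm _).trans (norm_tw_le _ _ _)
      linarith
    · have hcop : (p : ℕ).Coprime (N * M) := (Nat.Prime.coprime_iff_not_dvd p.prop).mpr hp
      have h1 := hval (p : ℕ) hcop
      have hp0 : ((p : ℕ) : ℂ) ≠ 0 := by exact_mod_cast p.prop.ne_zero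
      have h2 : (starRingEnd ℂ) (((p : ℕ) : ℂ) ^ (-(τ * I))) = ((p : ℕ) : ℂ) ^ (τ * I) := by
        have harg : (((p : ℕ) : ℂ)).arg ≠ Real.pi := by
          rw [Complex.natCast_arg]; exact Real.pi_pos.ne
        have h9 := Complex.cpow_conj ((p : ℕ) : ℂ) (-(τ * I)) harg
        rw [Complex.conj_natCast] at h9
        rw [← h9]
        congr 1
        simp
      have h3 : (starRingEnd ℂ) (tw χ τ p) * tw ψ σ p = tw θ (σ - τ) p := by
        unfold tw
        rw [h1, map_mul, h2]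
        have h4 : ((p : ℕ) : ℂ) ^ (-(((σ - τ : ℝ) : ℂ) * I)) =
            ((p : ℕ) : ℂ) ^ (τ * I) * ((p : ℕ) : ℂ) ^ (-(σ * I)) := by
          rw [← Complex.cpow_add _ _ hp0]
          congr 1
          push_cast
          ring
        rw [h4]
        ring
      rw [h3, one_mul, sub_self]
  refine (hD.add hB').congr fun x hx => ?_
  have hb1 : ∀ p, |((starRingEnd ℂ) (tw χ τ p) * tw ψ σ p).re| ≤ 1 := fun p => by
    refine (Complex.abs_re_le_norm _).trans ?_
    rw [norm_mul, Complex.norm_conj]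
    calc ‖tw χ τ p‖ * ‖tw ψ σ p‖ ≤ 1 * 1 :=
          mul_le_mul (norm_tw_le _ _ _) (norm_tw_le _ _ _) (norm_nonneg _) zero_le_one
      _ = 1 := mul_one 1
  have hb2 : ∀ p, |((1 : ℂ) * tw θ (σ - τ) p).re| ≤ 1 := fun p => by
    rw [one_mul]
    exact (Complex.abs_re_le_norm _).trans (norm_tw_le _ _ _)
  rw [← Summable.tsum_add]
  · refine tsum_congr fun p => ?_
    ring
  · refine bddmul_summable hx (C := 2) fun p => ?_
    have := abs_sub (((starRingEnd ℂ) (tw χ τ p) * tw ψ σ p).re) (((1 : ℂ) * tw θ (σ - τ) p).re)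
    have h1 := hb1 p
    have h2 := hb2 p
    linarith
  · exact bddmul_summable hx hb2

end Pool.Agent.H921R2.TatePole
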